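import Pool.Agent.Run7.h982.QP.Iface

/-! # Piece STEP1 of the project QP (helper982) -/

set_option autoImplicit false
set_option linter.unusedSectionVars false
set_option linter.unusedVariables false

namespace Pool.Agent.Run7.h56.QP

open Finset Filter Topology MeasureTheory ProbabilityTheory
open scoped InnerProductSpace ENNReal
open Pool.Agent.K7.H83.MA Pool.Agent.Run7.h982.QP

universe u

variable {X : Type u}

/-- the real indicator function -/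
noncomputable def rI (A : Set X) (x : X) : ℝ := A.indicator (fun _ => (1 : ℝ)) x

theorem iF_eq (A : Set X) (x : X) : iF A x = ((rI A x : ℝ) : ℂ) := by
  classical
  unfold iF rI
  by_cases h : x ∈ A <;> simp [h]

theorem rI_nonneg (A : Set X) (x : X) : 0 ≤ rI A x := Set.indicator_nonneg (fun _ _ => zero_le_one) x

theorem rI_le_one (A : Set X) (x : X) : rI A x ≤ 1 := by
  classical
  unfold rI
  by_cases h : x ∈ A <;> simp [h]

theorem rI_mono {A' A : Set X} (h : A' ⊆ A) (x : X) : rI A' x ≤ rI A x :=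
  Set.indicator_le_indicator_of_subset h (fun _ => zero_le_one) x

theorem rI_zero {A : Set X} {x : X} (h : x ∉ A) : rI A x = 0 := Set.indicator_of_notMem h _

/-- the product of the four indicator functions -/
noncomputable def wr (T : ℕ → X → X) (A : Set X) (m n : ℕ) (x : X) : ℝ :=
  rI A x * (rI A (T m x) * (rI A (T n x) * rI A (T (m * n) x)))

theorem wr_nonneg (T : ℕ → X → X) (A : Set X) (m n : ℕ) (x : X) : 0 ≤ wr T A m n x :=
  mul_nonneg (rI_nonneg _ _) (mul_nonneg (rI_nonneg _ _) (mul_nonneg (rI_nonneg _ _) (rI_nonneg _ _)))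

theorem wr_mono (T : ℕ → X → X) {A' A : Set X} (h : A' ⊆ A) (m n : ℕ) (x : X) :
    wr T A' m n x ≤ wr T A m n x := by
  unfold wr
  have := rI_nonneg A' x
  have := rI_nonneg A' (T m x)
  have := rI_nonneg A' (T n x)
  have := rI_nonneg A' (T (m * n) x)
  have := rI_nonneg A x
  have := rI_nonneg A (T m x)
  have := rI_nonneg A (T n x)
  exact mul_le_mul (rI_mono h _) (mul_le_mul (rI_mono h _) (mul_le_mul (rI_mono h _) (rI_mono h _)
    (by positivity) (by positivity)) (by positivity) (by positivity)) (by positivity) (by positivity)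

theorem wr_zero (T : ℕ → X → X) {A : Set X} {x : X} (h : x ∉ A) (m n : ℕ) : wr T A m n x = 0 := by
  unfold wr
  rw [rI_zero h, zero_mul]

variable [MeasurableSpace X] [StandardBorelSpace X] {μ : Measure X} [IsProbabilityMeasure μ]
variable {r : ℕ} {c : ℕ → Fin r} {T : ℕ → X → X}

theorem iF_BM {A : Set X} (hA : MeasurableSet A) : BM (iF A) := by
  refine ⟨measurable_const.indicator hA, 1, zero_le_one, fun x => ?_⟩
  rw [iF_eq, Complex.norm_real, Real.norm_of_nonneg (rI_nonneg _ _)]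
  exact rI_le_one _ _

theorem iF_le (A : Set X) (x : X) : ‖iF A x‖ ≤ 1 := by
  rw [iF_eq, Complex.norm_real, Real.norm_of_nonneg (rI_nonneg _ _)]
  exact rI_le_one _ _

theorem iv_norm {A : Set X} (hA : MeasurableSet A) : ‖iv μ A‖ ≤ 1 :=
  bl_norm_le (iF_BM hA) zero_le_one (iF_le A)

theorem wr_cast (T : ℕ → X → X) (A : Set X) (m n : ℕ) (x : X) :
    ((wr T A m n x : ℝ) : ℂ) = iF A x * ww T (iF A) (iF A) (iF A) m n x := by
  unfold wr ww
  rw [iF_eq, iF_eq, iF_eq, iF_eq]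
  push_cast
  rfl

theorem wBM (h : Sys c μ T) {A : Set X} (hA : MeasurableSet A) {m n : ℕ} (hm : 0 < m) (hn : 0 < n) :
    BM (fun x => iF A x * ww T (iF A) (iF A) (iF A) m n x) :=
  (iF_BM hA).mul (ww_BM h (iF_BM hA) (iF_BM hA) (iF_BM hA) hm hn)

theorem inner_left (h : Sys c μ T) {A : Set X} (hA : MeasurableSet A) {m n : ℕ} (hm : 0 < m)
    (hn : 0 < n) (f : Lp ℂ 2 μ) :
    (⟪iv μ A, mulB μ (ww T (iF A) (iF A) (iF A) m n) f⟫_ℂ).re =
      ∫ x, wr T A m n x * (f x).re ∂μ := by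
  have hB := wBM h hA hm hn
  have hI : Integrable (fun x => (iF A x * ww T (iF A) (iF A) (iF A) m n x) * f x) μ :=
    (memLp_mul hB f).integrable one_le_two
  have e : ⟪iv μ A, mulB μ (ww T (iF A) (iF A) (iF A) m n) f⟫_ℂ =
      ∫ x, (iF A x * ww T (iF A) (iF A) (iF A) m n x) * f x ∂μ := by
    rw [L2.inner_def]
    refine integral_congr_ae ?_
    filter_upwards [bl_coe (μ := μ) (iF_BM hA),
      mulB_coe (ww_BM h (iF_BM hA) (iF_BM hA) (iF_BM hA) hm hn) f] with x h1 h2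
    have h1' : (iv μ A : Lp ℂ 2 μ) x = iF A x := h1
    rw [h1', h2, RCLike.inner_apply, iF_eq A x, Complex.conj_ofReal]
    ring
  rw [e]
  have h3 := integral_re hI
  have h4 : (∫ x, (iF A x * ww T (iF A) (iF A) (iF A) m n x) * f x ∂μ).re =
      ∫ x, ((iF A x * ww T (iF A) (iF A) (iF A) m n x) * f x).re ∂μ := h3.symm
  rw [h4]
  refine integral_congr_ae (Eventually.of_forall fun x => ?_)
  beta_reduce
  rw [← wr_cast, Complex.re_ofReal_mul]

theorem inner_right (h : Sys c μ T) {A : Set X} (hA : MeasurableSet A) {m n : ℕ} (hm : 0 < m)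
    (hn : 0 < n) :
    (⟪Bn μ T A n, koop μ T m (Bn μ T A n)⟫_ℂ).re = ∫ x, wr T A m n x ∂μ := by
  have hB : BM (fun x => iF A x * iF A (T n x)) :=
    (iF_BM hA).mul ((iF_BM hA).comp (h.mp n hn).measurable)
  unfold Bn
  rw [koop_bl (h.mp m hm) hB, inner_bl hB (hB.comp (h.mp m hm).measurable)]
  have h1 : ∫ x, (starRingEnd ℂ) (iF A x * iF A (T n x)) *
      (iF A (T m x) * iF A (T n (T m x))) ∂μ = ∫ x, ((wr T A m n x : ℝ) : ℂ) ∂μ := by
    refine integral_congr_ae ?_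
    filter_upwards [h.mul n m hn hm] with x hx
    rw [← hx, mul_comm n m]
    unfold wr
    simp only [iF_eq, map_mul, Complex.conj_ofReal]
    push_cast
    ring
  rw [h1, integral_complex_ofReal, Complex.ofReal_re]

theorem key (h : Sys c μ T) {A A' : Set X} (hA : MeasurableSet A) (hA' : MeasurableSet A')
    (hsub : A' ⊆ A) {ε : ℝ} (f : Lp ℂ 2 μ) (hf0 : ∀ᵐ x ∂μ, 0 ≤ (f x).re)
    (hf : ∀ᵐ x ∂μ, x ∈ A' → ε ≤ (f x).re) {m n : ℕ} (hm : 0 < m) (hn : 0 < n) :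
    ε * (⟪Bn μ T A' n, koop μ T m (Bn μ T A' n)⟫_ℂ).re ≤
      (⟪iv μ A, mulB μ (ww T (iF A) (iF A) (iF A) m n) f⟫_ℂ).re := by
  rw [inner_left h hA hm hn, inner_right h hA' hm hn, ← integral_const_mul]
  have hI1 : Integrable (fun x => ε * wr T A' m n x) μ := by
    have h1 := (wBM h hA' hm hn).integrable μ
    have h2 : Integrable (fun x => ((iF A' x * ww T (iF A') (iF A') (iF A') m n x).re)) μ := h1.re
    refine (h2.congr (Eventually.of_forall fun x => ?_)).const_mul ε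
    beta_reduce
    rw [← wr_cast, Complex.ofReal_re]
  have hI2 : Integrable (fun x => wr T A m n x * (f x).re) μ := by
    have h1 : Integrable (fun x => (iF A x * ww T (iF A) (iF A) (iF A) m n x) * f x) μ :=
      (memLp_mul (wBM h hA hm hn) f).integrable one_le_two
    have h2 : Integrable (fun x => ((iF A x * ww T (iF A) (iF A) (iF A) m n x) * f x).re) μ := h1.re
    refine h2.congr (Eventually.of_forall fun x => ?_)
    beta_reduce
    rw [← wr_cast, Complex.re_ofReal_mul]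
  refine integral_mono_ae hI1 hI2 ?_
  filter_upwards [hf0, hf] with x h0 h1
  have h2 := wr_nonneg T A m n x
  have h3 := wr_nonneg T A' m n x
  have h4 := wr_mono T hsub m n x
  by_cases hx : x ∈ A'
  · have h5 := h1 hx
    calc ε * wr T A' m n x ≤ (f x).re * wr T A' m n x := mul_le_mul_of_nonneg_right h5 h3
      _ ≤ (f x).re * wr T A m n x := mul_le_mul_of_nonneg_left h4 h0
      _ = wr T A m n x * (f x).re := mul_comm _ _
  · rw [wr_zero T hx, mul_zero]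
    exact mul_nonneg h2 h0

theorem t_STEP1 : S_TK.{u} → S_POS.{u} → S_STEP1.{u} := by
  intro hTK hPOS X _ _ μ _ r c T h A A' hA hA' hsub ε hε hf Q hQ k hk δ hδ
  set a := iv μ A with ha
  set f : Lp ℂ 2 μ := PZ (koop μ T) a with hfdef
  set g : Lp ℂ 2 μ := a - f with hg
  have ha1 : ‖a‖ ≤ 1 := iv_norm hA
  have hf0 : ∀ᵐ x ∂μ, 0 ≤ (f x).re := by
    filter_upwards [hPOS X μ r c T h A hA] with x hx
    exact hx.1
  have horth : ∀ y, Per1 (koop μ T) y → ⟪y, g⟫_ℂ = 0 := by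
    intro y hy
    have h1 : y ∈ ZZ (koop μ T) := by
      unfold ZZ
      exact Submodule.le_topologicalClosure _ (Submodule.subset_span hy)
    have h2 : g ∈ (ZZ (koop μ T))ᗮ := by
      rw [hg, hfdef]
      unfold PZ
      exact Submodule.sub_starProjection_mem_orthogonal a
    exact Submodule.inner_right_of_mem_orthogonal h1 h2
  have hlim := hTK X μ r c T h Q hQ k (iF A) (iF A) (iF A) (iF_BM hA) (iF_BM hA) (iF_BM hA) g horth
  have hev := (Metric.tendsto_atTop.1 hlim) δ hδ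
  obtain ⟨N₀, hN₀⟩ := hev
  refine ⟨max N₀ 1, fun N hN => ?_⟩
  have hN1 := hN₀ N ((le_max_left _ _).trans hN)
  rw [dist_zero_right] at hN1
  have hNpos : 1 ≤ N := (le_max_right _ _).trans hN
  have hNr : (0 : ℝ) < N := by exact_mod_cast hNpos
  set L := lab c Q N (Q ^ k) 0 with hL
  set K := cls Q N with hK
  set w : ℕ → ℕ → X → ℂ := fun m n => ww T (iF A) (iF A) (iF A) m n with hw
  have hLpos : ∀ m ∈ L, 0 < m ∧ m ≤ N ∧ Q ∣ m := by
    intro m hm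
    rw [hL, mem_lab] at hm
    refine ⟨hm.1.1, hm.1.2, ?_⟩
    have h1 := sp_dvd c Q hm.1.1
    rw [hm.2.1] at h1
    exact (dvd_pow_self Q hk.ne').trans h1
  have hKpos : ∀ n ∈ K, 0 < n ∧ n ≤ N ∧ n % Q = 1 % Q := by
    intro n hn
    rw [hK] at hn
    unfold cls at hn
    rw [mem_filter, mem_Ioc] at hn
    exact ⟨hn.1.1, hn.1.2, hn.2⟩
  -- every term
  have hterm : ∀ m ∈ L, ∀ n ∈ K,
      (⟪a, mulB μ (w m n) (koop μ T (m + n) g)⟫_ℂ).re +
        ε * (⟪Bn μ T A' n, koop μ T m (Bn μ T A' n)⟫_ℂ).re - ‖koop μ T (m + n) f - f‖ ≤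
      (⟪a, mulB μ (w m n) (koop μ T (m + n) a)⟫_ℂ).re := by
    intro m hm n hn
    have hm0 := (hLpos m hm).1
    have hn0 := (hKpos n hn).1
    have h1 := key h hA hA' hsub f hf0 hf hm0 hn0
    have hwb : ∀ x, ‖ww T (iF A) (iF A) (iF A) m n x‖ ≤ 1 := by
      intro x
      refine (ww_bound (iF_le A) (iF_le A) (iF_le A) zero_le_one zero_le_one m n x).trans ?_
      norm_num
    have hwBM : BM (w m n) := ww_BM h (iF_BM hA) (iF_BM hA) (iF_BM hA) hm0 hn0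
    have h2 : ‖⟪a, mulB μ (w m n) (koop μ T (m + n) f - f)⟫_ℂ‖ ≤ ‖koop μ T (m + n) f - f‖ := by
      refine (norm_inner_le_norm _ _).trans ?_
      have h3 := mulB_norm (μ := μ) hwBM hwb (koop μ T (m + n) f - f)
      rw [one_mul] at h3
      calc ‖a‖ * ‖mulB μ (w m n) (koop μ T (m + n) f - f)‖ ≤
          1 * ‖koop μ T (m + n) f - f‖ := mul_le_mul ha1 h3 (norm_nonneg _) zero_le_one
        _ = _ := one_mul _
    have h4 : -‖koop μ T (m + n) f - f‖ ≤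
        (⟪a, mulB μ (w m n) (koop μ T (m + n) f - f)⟫_ℂ).re := by
      have h5 := abs_le.1 (Complex.abs_re_le_norm ⟪a, mulB μ (w m n) (koop μ T (m + n) f - f)⟫_ℂ)
      linarith [h5.1]
    have e1 : a = g + (f + 0) := by rw [hg]; abel
    have e2 : koop μ T (m + n) a = koop μ T (m + n) g + ((koop μ T (m + n) f - f) + f) := by
      rw [hg, map_sub]
      abel
    rw [e2, map_add, map_add, inner_add_right, inner_add_right, Complex.add_re, Complex.add_re]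
    have h6 : ε * (⟪Bn μ T A' n, koop μ T m (Bn μ T A' n)⟫_ℂ).re ≤ (⟪a, mulB μ (w m n) f⟫_ℂ).re := h1
    linarith
  -- the sum of the errors
  have hsum : ∑ m ∈ L, ∑ n ∈ K, ‖koop μ T (m + n) f - f‖ ≤
      (L.card : ℝ) * ∑ t ∈ cls Q (2 * N), ‖koop μ T t f - f‖ := by
    rw [← nsmul_eq_mul, ← Finset.sum_const]
    refine Finset.sum_le_sum fun m hm => ?_
    obtain ⟨hm0, hmN, hmQ⟩ := hLpos m hm
    have hinj : Set.InjOn (fun n => m + n) (K : Set ℕ) := fun a _ b _ hab => Nat.add_left_cancel hab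
    rw [← Finset.sum_image (f := fun t => ‖koop μ T t f - f‖) (g := fun n => m + n) hinj]
    refine Finset.sum_le_sum_of_subset_of_nonneg ?_ fun _ _ _ => norm_nonneg _
    intro t ht
    rw [Finset.mem_image] at ht
    obtain ⟨n, hn, rfl⟩ := ht
    obtain ⟨hn0, hnN, hnQ⟩ := hKpos n hn
    unfold cls
    rw [mem_filter, mem_Ioc]
    refine ⟨⟨by omega, by omega⟩, ?_⟩
    obtain ⟨q, rfl⟩ := hmQ
    rw [Nat.mul_add_mod, hnQ]
  -- the average of the first terms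
  have hfirst : -δ ≤ (N : ℝ)⁻¹ * (N : ℝ)⁻¹ * ∑ m ∈ L, ∑ n ∈ K,
      (⟪a, mulB μ (w m n) (koop μ T (m + n) g)⟫_ℂ).re := by
    set S : Lp ℂ 2 μ := ∑ m ∈ L, ∑ n ∈ K, mulB μ (w m n) (koop μ T (m + n) g) with hS
    have h1 : ‖⟪a, ((N : ℂ)⁻¹ * (N : ℂ)⁻¹) • S⟫_ℂ‖ ≤ δ := by
      refine (norm_inner_le_norm _ _).trans ?_
      calc ‖a‖ * ‖((N : ℂ)⁻¹ * (N : ℂ)⁻¹) • S‖ ≤ 1 * δ :=
            mul_le_mul ha1 hN1.le (norm_nonneg _) zero_le_one
        _ = δ := one_mul _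
    have h2 := abs_le.1 ((Complex.abs_re_le_norm ⟪a, ((N : ℂ)⁻¹ * (N : ℂ)⁻¹) • S⟫_ℂ).trans h1)
    have h3 : (⟪a, ((N : ℂ)⁻¹ * (N : ℂ)⁻¹) • S⟫_ℂ).re = (N : ℝ)⁻¹ * (N : ℝ)⁻¹ * ∑ m ∈ L, ∑ n ∈ K,
        (⟪a, mulB μ (w m n) (koop μ T (m + n) g)⟫_ℂ).re := by
      rw [inner_smul_right]
      have h4 : ((N : ℂ)⁻¹ * (N : ℂ)⁻¹) = (((N : ℝ)⁻¹ * (N : ℝ)⁻¹ : ℝ) : ℂ) := by push_cast; rfl
      rw [h4, Complex.re_ofReal_mul, hS, inner_sum, Complex.re_sum]
      congr 1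
      refine Finset.sum_congr rfl fun m _ => ?_
      rw [inner_sum, Complex.re_sum]
    rw [← h3]
    exact h2.1
  -- conclusion
  have hNN : 0 ≤ (N : ℝ)⁻¹ * (N : ℝ)⁻¹ := by positivity
  have hall : ∑ m ∈ L, ∑ n ∈ K, ((⟪a, mulB μ (w m n) (koop μ T (m + n) g)⟫_ℂ).re +
        ε * (⟪Bn μ T A' n, koop μ T m (Bn μ T A' n)⟫_ℂ).re - ‖koop μ T (m + n) f - f‖) ≤
      ∑ m ∈ L, ∑ n ∈ K, (⟪a, mulB μ (w m n) (koop μ T (m + n) a)⟫_ℂ).re :=
    Finset.sum_le_sum fun m hm => Finset.sum_le_sum fun n hn => hterm m hm n hn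
  simp only [Finset.sum_sub_distrib, Finset.sum_add_distrib, ← Finset.mul_sum] at hall
  have h1 := mul_le_mul_of_nonneg_left hall hNN
  have h2 := mul_le_mul_of_nonneg_left hsum hNN
  have h3 : (N : ℝ)⁻¹ * (N : ℝ)⁻¹ * ((L.card : ℝ) * ∑ t ∈ cls Q (2 * N), ‖koop μ T t f - f‖) =
      ((L.card : ℝ) / N) * ((N : ℝ)⁻¹ * ∑ t ∈ cls Q (2 * N), ‖koop μ T t f - f‖) := by
    rw [div_eq_mul_inv]
    ring
  rw [h3] at h2
  show ε * ((N : ℝ)⁻¹ * (N : ℝ)⁻¹ * ∑ m ∈ L, ∑ n ∈ K,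
      (⟪Bn μ T A' n, koop μ T m (Bn μ T A' n)⟫_ℂ).re) -
    ((L.card : ℝ) / N) * ((N : ℝ)⁻¹ * ∑ t ∈ cls Q (2 * N), ‖koop μ T t f - f‖) - δ ≤
    (N : ℝ)⁻¹ * (N : ℝ)⁻¹ * ∑ m ∈ L, ∑ n ∈ K,
      (⟪a, mulB μ (w m n) (koop μ T (m + n) a)⟫_ℂ).re
  have h4 : (N : ℝ)⁻¹ * (N : ℝ)⁻¹ * (∑ m ∈ L, ∑ n ∈ K, (⟪a, mulB μ (w m n) (koop μ T (m + n) g)⟫_ℂ).re +
      ε * ∑ m ∈ L, ∑ n ∈ K, (⟪Bn μ T A' n, koop μ T m (Bn μ T A' n)⟫_ℂ).re -
      ∑ m ∈ L, ∑ n ∈ K, ‖koop μ T (m + n) f - f‖) =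
      (N : ℝ)⁻¹ * (N : ℝ)⁻¹ * ∑ m ∈ L, ∑ n ∈ K, (⟪a, mulB μ (w m n) (koop μ T (m + n) g)⟫_ℂ).re +
      ε * ((N : ℝ)⁻¹ * (N : ℝ)⁻¹ * ∑ m ∈ L, ∑ n ∈ K, (⟪Bn μ T A' n, koop μ T m (Bn μ T A' n)⟫_ℂ).re) -
      (N : ℝ)⁻¹ * (N : ℝ)⁻¹ * ∑ m ∈ L, ∑ n ∈ K, ‖koop μ T (m + n) f - f‖ := by ring
  rw [h4] at h1
  linarith

end Pool.Agent.Run7.h56.QP
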